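import Pool.Agent.H6.RCQ.Stmts3

/-!
# Project RCQ: modules E8A, E9, E10
-/

set_option autoImplicit false

namespace Pool.Agent.H31.RCQ.E9

open Pool.Agent.H39.RC Pool.Agent.H6.RCQ
open Classical

variable {V : Type}

lemma cn_comm (G : SimpleGraph V) (R : Finset V) (x c : V) : CN G R x c = CN G R c x := by
  unfold CN
  ext v
  simp only [Finset.mem_filter]
  tauto

lemma ii_comm (G : SimpleGraph V) (R : Finset V) (x c : V) : II G R x c = II G R c x := by
  unfold II
  ext v
  simp only [Finset.mem_filter]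
  tauto

lemma mem_CN {G : SimpleGraph V} {R : Finset V} {x c v : V} :
    v ∈ CN G R x c ↔ v ∈ R ∧ G.Adj x v ∧ G.Adj c v := by
  unfold CN
  rw [Finset.mem_filter]

lemma mem_II {G : SimpleGraph V} {R : Finset V} {x c v : V} :
    v ∈ II G R x c ↔ v ∈ R ∧ v ≠ x ∧ v ≠ c ∧ ¬ G.Adj x v ∧ ¬ G.Adj c v := by
  unfold II
  rw [Finset.mem_filter]

lemma mem_PB {G : SimpleGraph V} {R : Finset V} {x c v : V} :
    v ∈ PB G R x c ↔ v ∈ R ∧ G.Adj x v ∧ ¬ G.Adj c v ∧ v ≠ c := by
  unfold PB
  rw [Finset.mem_filter]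

lemma mid_symm {G : SimpleGraph V} {R : Finset V} {x c a1 a2 a3 a4 : V}
    (h : Mid G R x c a1 a2 a3 a4) : Mid G R c x a1 a2 a3 a4 := by
  unfold Mid at h ⊢
  rw [cn_comm G R c x, ii_comm G R c x]
  exact h

lemma mid_rev {G : SimpleGraph V} {R : Finset V} {x c a1 a2 a3 a4 : V}
    (h : Mid G R x c a1 a2 a3 a4) : Mid G R x c a4 a3 a2 a1 := by
  obtain ⟨h0, h12, h13, h14, h23, h24, h34, e12, e34, hu⟩ := h
  refine ⟨?_, h34.symm, h24.symm, h14.symm, h23.symm, h13.symm, h12.symm, e34.symm, e12.symm,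
    fun u hu' => ⟨(hu u hu').2, (hu u hu').1⟩⟩
  rw [h0]
  ext z
  simp only [Finset.mem_insert, Finset.mem_singleton]
  tauto

lemma ir_card (R : Finset V) (x : V) : (R.filter (fun v => v = x)).card = ir R x := by
  unfold ir
  split_ifs with h
  · rw [Finset.card_eq_one]
    refine ⟨x, ?_⟩
    ext v
    simp only [Finset.mem_filter, Finset.mem_singleton]
    constructor
    · exact fun h => h.2
    · rintro rfl
      exact ⟨h, rfl⟩
  · rw [Finset.card_eq_zero, Finset.filter_eq_empty_iff]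
    rintro v hv rfl
    exact h hv

lemma mids {G : SimpleGraph V} {R : Finset V} {x c a1 a2 a3 a4 : V}
    (h : Mid G R x c a1 a2 a3 a4) :
    a1 ∈ CN G R x c ∧ a2 ∈ CN G R x c ∧ a3 ∈ CN G R x c ∧ a4 ∈ CN G R x c := by
  rw [h.1]
  simp

/-- both middle vertices are adjacent to the private neighbours on the other side -/
lemma cross (h1 : RM1Stmt) (h2 : RM2Stmt) {G : SimpleGraph V} {R : Finset V}
    {x c a1 a2 a3 a4 : V} (lf : Lf G R) (hne : x ≠ c) (hm : Mid G R x c a1 a2 a3 a4)
    (hI : 2 ≤ (II G R x c).card) (hB : (PB G R x c).Nonempty)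
    (hE : (PB G R c x).Nonempty) (n2 : ∃ b ∈ PB G R x c, ¬ G.Adj b a2)
    (n3 : ∃ b ∈ PB G R x c, ¬ G.Adj b a3) : ∀ e ∈ PB G R c x, G.Adj e a2 ∧ G.Adj e a3 := by
  have hb := h1 V G R x c a1 a2 a3 a4 lf hne hm hI hE
  have he := h1 V G R c x a1 a2 a3 a4 lf hne.symm (mid_symm hm) (by rw [ii_comm]; exact hI) hB
  obtain ⟨b, mb, nb⟩ := n2
  obtain ⟨b', mb', nb'⟩ := n3
  have hb3 : G.Adj b a3 := (hb b mb).resolve_left nb
  have hb2 : G.Adj b' a2 := (hb b' mb').resolve_right nb'
  intro e me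
  by_cases e2 : G.Adj e a2
  · refine ⟨e2, ?_⟩
    by_contra e3
    exact h2 V G R x c a4 a3 a2 a1 lf hne (mid_rev hm) hI b mb e me hb3 nb e2 e3
  · exfalso
    have e3 : G.Adj e a3 := (he e me).resolve_left e2
    exact h2 V G R x c a1 a2 a3 a4 lf hne hm hI b' mb' e me hb2 nb' e3 e2

/-- counting common neighbours of the two middle vertices, adjacent poles -/
lemma bound_adj {G : SimpleGraph V} {R : Finset V} {x c a1 a2 a3 a4 : V} (co : Co4 G R)
    (hxc : G.Adj x c) (hm : Mid G R x c a1 a2 a3 a4) (hc : c ∈ R) (E : Finset V)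
    (hE : E ⊆ PB G R c x) (hEa : ∀ e ∈ E, G.Adj e a2 ∧ G.Adj e a3) :
    E.card + (II G R x c).card + 1 + ir R x ≤ 4 := by
  obtain ⟨m1, m2, m3, m4⟩ := mids hm
  obtain ⟨h0, h12, h13, h14, h23, h24, h34, e12, e34, hu⟩ := hm
  rw [mem_CN] at m1 m2 m3 m4
  have hsub : (E ∪ II G R x c) ∪ ({c} ∪ R.filter (fun v => v = x)) ⊆ CN G R a2 a3 := by
    intro v hv
    rw [mem_CN]
    simp only [Finset.mem_union, Finset.mem_singleton, Finset.mem_filter] at hv
    rcases hv with (hv | hv) | (rfl | ⟨hv, rfl⟩)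
    · exact ⟨(mem_PB.mp (hE hv)).1, (hEa v hv).1.symm, (hEa v hv).2.symm⟩
    · exact ⟨(mem_II.mp hv).1, (hu v hv).1.symm, (hu v hv).2.symm⟩
    · exact ⟨hc, m2.2.2.symm, m3.2.2.symm⟩
    · exact ⟨hv, m2.2.1.symm, m3.2.1.symm⟩
  have hcard := (Finset.card_le_card hsub).trans (co a2 a3 h23)
  rw [Finset.card_union_of_disjoint, Finset.card_union_of_disjoint, Finset.card_union_of_disjoint,
    Finset.card_singleton, ir_card] at hcard
  · omega
  · rw [Finset.disjoint_singleton_left, Finset.mem_filter]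
    rintro ⟨-, h⟩
    exact hxc.ne h.symm
  · rw [Finset.disjoint_left]
    intro v hv hv'
    exact (mem_II.mp hv').2.2.2.2 (mem_PB.mp (hE hv)).2.1
  · rw [Finset.disjoint_left]
    intro v hv hv'
    simp only [Finset.mem_union, Finset.mem_singleton, Finset.mem_filter] at hv hv'
    rcases hv' with rfl | ⟨-, rfl⟩
    · rcases hv with hv | hv
      · exact (mem_PB.mp (hE hv)).2.1.ne rfl
      · exact (mem_II.mp hv).2.2.1 rfl
    · rcases hv with hv | hv
      · exact (mem_PB.mp (hE hv)).2.2.2 rfl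
      · exact (mem_II.mp hv).2.1 rfl

/-- at most two private neighbours of `x` are adjacent to a middle vertex, adjacent poles -/
lemma at_most_two {G : SimpleGraph V} {R : Finset V} {x c a1 a2 : V} (co : Co4 G R)
    (hxc : G.Adj x c) (hc : c ∈ R) (m1 : a1 ∈ CN G R x c) (m2 : a2 ∈ CN G R x c)
    (e12 : G.Adj a1 a2) : ((PB G R x c).filter (fun b => G.Adj b a2)).card ≤ 2 := by
  rw [mem_CN] at m1 m2
  have hsub : (PB G R x c).filter (fun b => G.Adj b a2) ∪ {a1, c} ⊆ CN G R x a2 := by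
    intro v hv
    rw [mem_CN]
    simp only [Finset.mem_union, Finset.mem_insert, Finset.mem_singleton, Finset.mem_filter] at hv
    rcases hv with ⟨hv, hv'⟩ | (rfl | rfl)
    · exact ⟨(mem_PB.mp hv).1, (mem_PB.mp hv).2.1, hv'.symm⟩
    · exact ⟨m1.1, m1.2.1, e12.symm⟩
    · exact ⟨hc, hxc, m2.2.2.symm⟩
  have hcard := (Finset.card_le_card hsub).trans (co x a2 m2.2.1.ne)
  rw [Finset.card_union_of_disjoint, Finset.card_pair m1.2.2.ne'] at hcard
  · omega
  · rw [Finset.disjoint_left]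
    intro v hv hv'
    simp only [Finset.mem_insert, Finset.mem_singleton, Finset.mem_filter] at hv hv'
    have hv1 := mem_PB.mp hv.1
    rcases hv' with rfl | rfl
    · exact hv1.2.2.1 m1.2.2
    · exact hv1.2.2.2 rfl

/-- at most three private neighbours of `x` are adjacent to a middle vertex -/
lemma at_most_three {G : SimpleGraph V} {R : Finset V} {x c a1 a2 : V} (co : Co4 G R)
    (m1 : a1 ∈ CN G R x c) (m2 : a2 ∈ CN G R x c)
    (e12 : G.Adj a1 a2) : ((PB G R x c).filter (fun b => G.Adj b a2)).card ≤ 3 := by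
  rw [mem_CN] at m1 m2
  have hsub : (PB G R x c).filter (fun b => G.Adj b a2) ∪ {a1} ⊆ CN G R x a2 := by
    intro v hv
    rw [mem_CN]
    simp only [Finset.mem_union, Finset.mem_singleton, Finset.mem_filter] at hv
    rcases hv with ⟨hv, hv'⟩ | rfl
    · exact ⟨(mem_PB.mp hv).1, (mem_PB.mp hv).2.1, hv'.symm⟩
    · exact ⟨m1.1, m1.2.1, e12.symm⟩
  have hcard := (Finset.card_le_card hsub).trans (co x a2 m2.2.1.ne)
  rw [Finset.card_union_of_disjoint, Finset.card_singleton] at hcard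
  · omega
  · rw [Finset.disjoint_left]
    intro v hv hv'
    simp only [Finset.mem_singleton, Finset.mem_filter] at hv hv'
    subst hv'
    exact (mem_PB.mp hv.1).2.2.1 m1.2.2

lemma exists_not {S : Finset V} {p : V → Prop} (h : (S.filter p).card < S.card) :
    ∃ b ∈ S, ¬ p b := by
  by_contra hcon
  push Not at hcon
  rw [Finset.filter_true_of_mem hcon] at h
  exact lt_irrefl _ h

/-- module E9 -/
theorem e9 (h5 : R5AStmt) (h1 : RM1Stmt) (h2 : RM2Stmt) (hrc : RCStmt) : E9Stmt := by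
  intro V G R x c hL hdeg hx hxc hc hcn
  have co := hL.co
  obtain ⟨r1, -, r3⟩ := hrc V G R x c hxc.ne
  obtain ⟨-, -, r3'⟩ := hrc V G R c x hxc.ne'
  have r1 := r1 hxc
  rw [if_pos hxc] at r3
  rw [if_pos hxc.symm] at r3'
  rw [cn_comm G R c x] at r3'
  have hdc := hdeg c
  have irc : ir R c = 1 := by
    unfold ir
    rw [if_pos hc]
  rw [hL.card, hcn] at r1
  rw [hcn] at r3 r3'
  have hI : 2 ≤ (II G R x c).card := by omega
  have hIn : (II G R x c).Nonempty := Finset.card_pos.mp (by omega)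
  obtain ⟨a1, a2, a3, a4, hm⟩ := h5 V G R x c hL.lf hxc hcn hIn
  have b0 := bound_adj co hxc hm hc ∅ (by simp) (by simp)
  rw [Finset.card_empty] at b0
  have hEn : (PB G R c x).Nonempty := Finset.card_pos.mp (by omega)
  have hBc : (PB G R x c).card = 4 := by omega
  have hBn : (PB G R x c).Nonempty := Finset.card_pos.mp (by omega)
  obtain ⟨m1, m2, m3, m4⟩ := mids hm
  have k2 := at_most_two co hxc hc m1 m2 hm.2.2.2.2.2.2.2.1
  have k3 := at_most_two co hxc hc m4 m3 hm.2.2.2.2.2.2.2.2.1.symm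
  have hcr := cross h1 h2 hL.lf hxc.ne hm hI hBn hEn (exists_not (by omega)) (exists_not (by omega))
  have b1 := bound_adj co hxc hm hc (PB G R c x) subset_rfl hcr
  omega

/-- module E8A -/
theorem e8a (h5 : R5NStmt) (h4 : R4NStmt) (h4a : R4AStmt) (h1 : RM1Stmt) (h2 : RM2Stmt)
    (hrc : RCStmt) : E8AStmt := by
  intro V G R x c hL hdeg hx hne hcn
  have co := hL.co
  have hd := (h4 V G R x c 8 hL.lf co hne hcn hdeg).1 (by norm_num) hx
  have hdc := hdeg c
  have hcard := hL.card
  have hDc : (D G R c).card = 8 := by omega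
  obtain ⟨r1, r2, r3⟩ := hrc V G R x c hne
  obtain ⟨-, -, r3'⟩ := hrc V G R c x hne.symm
  rw [cn_comm G R c x] at r3'
  have key : (II G R x c).card + ir R x + ir R c = 4 ∧ (PB G R x c).card = 4 ∧
      (PB G R c x).card = 4 := by
    by_cases hxc : G.Adj x c
    · have hcR : c ∉ R := by
        intro hc
        have := h5 V G R x c hL.lf co hxc hc hcn
        omega
      have hxR : x ∉ R := by
        intro hx'
        have := h5 V G R c x hL.lf co hxc.symm hx' (by rw [cn_comm]; exact hcn)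
        omega
      have irx : ir R x = 0 := by
        unfold ir
        rw [if_neg hxR]
      have irc : ir R c = 0 := by
        unfold ir
        rw [if_neg hcR]
      have r1 := r1 hxc
      rw [if_pos hxc] at r3
      rw [if_pos hxc.symm] at r3'
      omega
    · have r2 := r2 hxc
      rw [if_neg hxc] at r3
      rw [if_neg (fun h => hxc h.symm)] at r3'
      omega
  obtain ⟨k1, k2, k3⟩ := key
  have irx : ir R x ≤ 1 := by
    unfold ir
    split_ifs <;> omega
  have irc : ir R c ≤ 1 := by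
    unfold ir
    split_ifs <;> omega
  have hI : 2 ≤ (II G R x c).card := by omega
  have hIn : (II G R x c).Nonempty := Finset.card_pos.mp (by omega)
  have hBn : (PB G R x c).Nonempty := Finset.card_pos.mp (by omega)
  have hEn : (PB G R c x).Nonempty := Finset.card_pos.mp (by omega)
  obtain ⟨a1, a2, a3, a4, hm⟩ := h4a V G R x c hL.lf co hne hcn hIn (by omega)
  obtain ⟨m1, m2, m3, m4⟩ := mids hm
  have q2 := at_most_three co m1 m2 hm.2.2.2.2.2.2.2.1
  have q3 := at_most_three co m4 m3 hm.2.2.2.2.2.2.2.2.1.symm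
  have hcr := cross h1 h2 hL.lf hne hm hI hBn hEn (exists_not (by omega)) (exists_not (by omega))
  obtain ⟨h0, h12, h13, h14, h23, h24, h34, e12, e34, hu⟩ := hm
  have hsub : PB G R c x ∪ II G R x c ⊆ CN G R a2 a3 := by
    intro v hv
    rw [mem_CN]
    rcases Finset.mem_union.mp hv with hv | hv
    · exact ⟨(mem_PB.mp hv).1, (hcr v hv).1.symm, (hcr v hv).2.symm⟩
    · exact ⟨(mem_II.mp hv).1, (hu v hv).1.symm, (hu v hv).2.symm⟩
  have hc4 := (Finset.card_le_card hsub).trans (co a2 a3 h23)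
  rw [Finset.card_union_of_disjoint] at hc4
  · omega
  · rw [Finset.disjoint_left]
    intro v hv hv'
    exact (mem_II.mp hv').2.2.2.2 (mem_PB.mp hv).2.1

/-- at most one vertex of `R` is far from both `x` and a hub `c` with four common neighbours -/
lemma one_far (h5 : R5AStmt) (h1 : RM1Stmt) (hrc : RCStmt) {G : SimpleGraph V} {R : Finset V}
    {x c : V} (hL : L16 G R) (hx : (D G R x).card = 10) (hxc : G.Adj x c) (hc : c ∈ R)
    (hcn : (CN G R x c).card = 4) : (II G R x c).card ≤ 1 := by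
  by_contra hcon
  have hI : 2 ≤ (II G R x c).card := by omega
  have co := hL.co
  obtain ⟨r1, -, r3⟩ := hrc V G R x c hxc.ne
  obtain ⟨-, -, r3'⟩ := hrc V G R c x hxc.ne'
  have r1 := r1 hxc
  rw [if_pos hxc] at r3
  rw [if_pos hxc.symm] at r3'
  rw [cn_comm G R c x] at r3'
  have irc : ir R c = 1 := by
    unfold ir
    rw [if_pos hc]
  rw [hL.card, hcn] at r1
  rw [hcn] at r3 r3'
  have hIn : (II G R x c).Nonempty := Finset.card_pos.mp (by omega)
  obtain ⟨a1, a2, a3, a4, hm⟩ := h5 V G R x c hL.lf hxc hcn hIn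
  have b0 := bound_adj co hxc hm hc ∅ (by simp) (by simp)
  rw [Finset.card_empty] at b0
  have hEn : (PB G R c x).Nonempty := Finset.card_pos.mp (by omega)
  have hb := h1 V G R x c a1 a2 a3 a4 hL.lf hxc.ne hm hI hEn
  obtain ⟨m1, m2, m3, m4⟩ := mids hm
  have k2 := at_most_two co hxc hc m1 m2 hm.2.2.2.2.2.2.2.1
  have k3 := at_most_two co hxc hc m4 m3 hm.2.2.2.2.2.2.2.2.1.symm
  have hsub : PB G R x c ⊆ (PB G R x c).filter (fun b => G.Adj b a2) ∪
      (PB G R x c).filter (fun b => G.Adj b a3) := by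
    intro b mb
    rw [Finset.mem_union, Finset.mem_filter, Finset.mem_filter]
    rcases hb b mb with h | h
    · exact Or.inl ⟨mb, h⟩
    · exact Or.inr ⟨mb, h⟩
  have hle := (Finset.card_le_card hsub).trans (Finset.card_union_le _ _)
  omega

/-- module E10 -/
theorem e10 (h5 : R5AStmt) (h1 : RM1Stmt) (hrc : RCStmt) : E10Stmt := by
  intro V G R x c c' hL hdeg hx hxc hxc' hc hc' hcc hcn hcn' hcov
  have co := hL.co
  have f1 := one_far h5 h1 hrc hL hx hxc hc hcn
  have f2 := one_far h5 h1 hrc hL hx hxc' hc' hcn'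
  -- the closed common neighbourhoods are disjoint
  have cc : ∀ z, G.Adj x z → z ∈ R → (CN G R x z).card = 4 → (CC G R x z).card = 5 := by
    intro z hz hzR h4
    have : CC G R x z = insert z (CN G R x z) := by
      ext t
      unfold CC CN
      simp only [Finset.mem_filter, Finset.mem_insert]
      constructor
      · rintro ⟨h1, h2, rfl | h3⟩
        · exact Or.inl rfl
        · exact Or.inr ⟨h1, h2, h3⟩
      · rintro (rfl | ⟨h1, h2, h3⟩)
        · exact ⟨hzR, hz, Or.inl rfl⟩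
        · exact ⟨h1, h2, Or.inr h3⟩
    rw [this, Finset.card_insert_of_notMem, h4]
    rw [mem_CN]
    exact fun h => h.2.2.ne rfl
  have c1 := cc c hxc hc hcn
  have c2 := cc c' hxc' hc' hcn'
  have hDsub : D G R x ⊆ CC G R x c ∪ CC G R x c' := by
    intro s hs
    rw [Finset.mem_union]
    exact hcov s hs
  have hle := Finset.card_le_card hDsub
  have hdis : Disjoint (CC G R x c) (CC G R x c') := by
    rw [← Finset.card_union_eq_card_add_card]
    have := Finset.card_union_le (CC G R x c) (CC G R x c')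
    omega
  rw [Finset.disjoint_left] at hdis
  have mc : c ∈ CC G R x c := by
    unfold CC
    rw [Finset.mem_filter]
    exact ⟨hc, hxc, Or.inl rfl⟩
  have mc' : c' ∈ CC G R x c' := by
    unfold CC
    rw [Finset.mem_filter]
    exact ⟨hc', hxc', Or.inl rfl⟩
  -- the non-neighbours
  have hU : (D G R x).card + (U G R x).card + ir R x = 16 := by
    rw [← hL.card, ← ir_card]
    have e1 : R = D G R x ∪ U G R x ∪ R.filter (fun v => v = x) := by
      ext v
      unfold D U
      simp only [Finset.mem_union, Finset.mem_filter]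
      tauto
    conv_rhs => rw [e1]
    rw [Finset.card_union_of_disjoint, Finset.card_union_of_disjoint]
    · rw [Finset.disjoint_left]
      unfold D U
      intro v hv hv'
      rw [Finset.mem_filter] at hv hv'
      exact hv'.2.2 hv.2
    · rw [Finset.disjoint_left]
      unfold D U
      intro v hv hv'
      simp only [Finset.mem_union, Finset.mem_filter] at hv hv'
      obtain ⟨-, rfl⟩ := hv'
      rcases hv with hv | hv
      · exact hv.2.ne rfl
      · exact hv.2.1 rfl
  have irx : ir R x ≤ 1 := by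
    unfold ir
    split_ifs <;> omega
  set F := (U G R x).filter (fun v => G.Adj c v ∧ G.Adj c' v) with hF
  have hUsub : U G R x ⊆ (II G R x c ∪ II G R x c') ∪ F := by
    intro v hv
    have hv' := hv
    unfold U at hv'
    rw [Finset.mem_filter] at hv'
    rw [Finset.mem_union, Finset.mem_union, mem_II, mem_II, hF, Finset.mem_filter]
    have n1 : v ≠ c := by
      rintro rfl
      exact hv'.2.2 hxc
    have n2 : v ≠ c' := by
      rintro rfl
      exact hv'.2.2 hxc'
    by_cases q1 : G.Adj c v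
    · by_cases q2 : G.Adj c' v
      · exact Or.inr ⟨hv, q1, q2⟩
      · exact Or.inl (Or.inr ⟨hv'.1, hv'.2.1, n2, hv'.2.2, q2⟩)
    · exact Or.inl (Or.inl ⟨hv'.1, hv'.2.1, n1, hv'.2.2, q1⟩)
  have hFcn : F ∪ R.filter (fun v => v = x) ⊆ CN G R c c' := by
    intro v hv
    rw [mem_CN]
    rcases Finset.mem_union.mp hv with hv | hv
    · rw [hF, Finset.mem_filter] at hv
      have := hv.1
      unfold U at this
      rw [Finset.mem_filter] at this
      exact ⟨this.1, hv.2⟩
    · rw [Finset.mem_filter] at hv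
      obtain ⟨h1, rfl⟩ := hv
      exact ⟨h1, hxc.symm, hxc'.symm⟩
  have hF4 := (Finset.card_le_card hFcn).trans (co c c' hcc)
  rw [Finset.card_union_of_disjoint, ir_card] at hF4
  swap
  · rw [Finset.disjoint_left]
    intro v hv hv'
    rw [hF, Finset.mem_filter] at hv
    rw [Finset.mem_filter] at hv'
    have := hv.1
    unfold U at this
    rw [Finset.mem_filter] at this
    exact this.2.1 hv'.2
  have hUc := (Finset.card_le_card hUsub).trans (Finset.card_union_le _ _)
  have hII := Finset.card_union_le (II G R x c) (II G R x c')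
  have g1 : (II G R x c).card = 1 := by omega
  have g2 : (II G R x c').card = 1 := by omega
  have hdII : Disjoint (II G R x c) (II G R x c') := by
    rw [← Finset.card_union_eq_card_add_card]
    omega
  obtain ⟨u, hu⟩ := Finset.card_eq_one.mp g1
  have mu : u ∈ II G R x c := by rw [hu]; simp
  have nu' : u ∉ II G R x c' := Finset.disjoint_left.mp hdII mu
  rw [mem_II] at mu nu'
  have uc' : G.Adj c' u := by
    by_contra hcon
    refine nu' ⟨mu.1, mu.2.1, ?_, mu.2.2.2.1, hcon⟩
    rintro rfl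
    exact mu.2.2.2.1 hxc'
  obtain ⟨a1, a2, a3, a4, hm⟩ := h5 V G R x c hL.lf hxc hcn (Finset.card_pos.mp (by omega))
  obtain ⟨m1, m2, m3, m4⟩ := mids hm
  have a2c : a2 ∈ CC G R x c := by
    rw [mem_CN] at m2
    unfold CC
    rw [Finset.mem_filter]
    exact ⟨m2.1, m2.2.1, Or.inr m2.2.2⟩
  have a3c : a3 ∈ CC G R x c := by
    rw [mem_CN] at m3
    unfold CC
    rw [Finset.mem_filter]
    exact ⟨m3.1, m3.2.1, Or.inr m3.2.2⟩
  rw [mem_CN] at m1 m2 m3 m4
  have ua : G.Adj u a2 ∧ G.Adj u a3 := hm.2.2.2.2.2.2.2.2.2 u (by rw [hu]; simp)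
  have hFpos : 0 < F.card := by omega
  obtain ⟨f, hf⟩ := Finset.card_pos.mp hFpos
  rw [hF, Finset.mem_filter] at hf
  obtain ⟨hfU, fc, fc'⟩ := hf
  unfold U at hfU
  rw [Finset.mem_filter] at hfU
  have n_a2c' : a2 ≠ c' := by
    rintro rfl
    exact hdis a2c mc'
  have n_a3c' : a3 ≠ c' := by
    rintro rfl
    exact hdis a3c mc'
  have n_fa2 : f ≠ a2 := by
    rintro rfl
    exact hfU.2.2 m2.2.1
  have n_fa3 : f ≠ a3 := by
    rintro rfl
    exact hfU.2.2 m3.2.1
  have n_uf : u ≠ f := by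
    rintro rfl
    exact mu.2.2.2.2 fc
  have n_uc' : u ≠ c' := by
    rintro rfl
    exact mu.2.2.2.1 hxc'
  apply hL.lf.pg.k33
  refine hasMinor_k33 ![{a2}, {a3}, {c', f}] ![{x}, {c}, {u}] ?_ ?_ ?_ ?_ ?_ ?_
  · intro i
    fin_cases i
    · exact con_single a2
    · exact con_single a3
    · exact con_pair (Or.inr fc')
  · intro i
    fin_cases i
    · exact con_single x
    · exact con_single c
    · exact con_single u
  · intro i j hij
    fin_cases i <;> fin_cases j <;> simp at hij ⊢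
    · exact hm.2.2.2.2.1
    · exact ⟨n_a2c', n_fa2.symm⟩
    · exact ⟨n_a3c', n_fa3.symm⟩
  · intro i j hij
    fin_cases i <;> fin_cases j <;> simp at hij ⊢
    · exact hxc.ne
    · exact mu.2.1.symm
    · exact mu.2.2.1.symm
  · intro i j
    fin_cases i <;> fin_cases j <;> simp
    · exact m2.2.1.ne'
    · exact m2.2.2.ne'
    · exact ua.1.ne'
    · exact m3.2.1.ne'
    · exact m3.2.2.ne'
    · exact ua.2.ne'
    · exact ⟨hxc'.ne, hfU.2.1.symm⟩
    · exact ⟨hcc, fc.ne⟩
    · exact ⟨n_uc', n_uf⟩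
  · intro i j
    fin_cases i <;> fin_cases j
    · exact ⟨a2, rfl, x, rfl, m2.2.1.symm⟩
    · exact ⟨a2, rfl, c, rfl, m2.2.2.symm⟩
    · exact ⟨a2, rfl, u, rfl, ua.1.symm⟩
    · exact ⟨a3, rfl, x, rfl, m3.2.1.symm⟩
    · exact ⟨a3, rfl, c, rfl, m3.2.2.symm⟩
    · exact ⟨a3, rfl, u, rfl, ua.2.symm⟩
    · exact ⟨c', Or.inl rfl, x, rfl, hxc'.symm⟩
    · exact ⟨f, Or.inr rfl, c, rfl, fc.symm⟩
    · exact ⟨c', Or.inl rfl, u, rfl, uc'⟩

end Pool.Agent.H31.RCQ.E9
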