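import Pool.Agent.H6.RCQ.Stmts3

/-!
# Project RCQ: module GC
-/

set_option autoImplicit false

namespace Pool.Agent.H31.RCQ.GC

open Pool.Agent.H39.RC Pool.Agent.H6.RCQ
open Classical

/-- module GC -/
theorem gc (h : GLStmt) : GCStmt := by
  intro V G R x hL hD hU
  obtain ⟨u, hu, v, hv, huv, nuv⟩ := hU
  unfold U at hu hv
  rw [Finset.mem_filter] at hu hv
  have memD : ∀ t, t ∈ D G R x ↔ t ∈ R ∧ G.Adj x t := by
    intro t
    unfold D
    rw [Finset.mem_filter]
  have key : ∀ w, w ∈ R → w ≠ x → ¬ G.Adj x w → ∀ t ∈ D G R x, Rch G {x} w t := by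
    intro w hw hwx nw t ht
    rw [memD] at ht
    have hne : w ≠ t := by
      rintro rfl
      exact nw ht.2
    rcases hL.lk w hw t ht.1 hne with h | ⟨y, -, h1, h2⟩
    · exact Or.inl h
    · refine Or.inr ⟨y, ?_, h1, h2⟩
      rw [Set.mem_singleton_iff]
      rintro rfl
      exact nw h1.symm
  have hmem : ∀ s ∈ D G R x, ∀ z, (s = z ∨ G.Adj z s) → s ∈ CC G R x z := by
    intro s hs z hz
    rw [memD] at hs
    unfold CC
    rw [Finset.mem_filter]
    exact ⟨hs.1, hs.2, hz⟩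
  have nex : ∀ t ∈ D G R x, t ≠ x := by
    intro t ht
    rw [memD] at ht
    exact ht.2.ne'
  rcases h V G (D G R x) x u v hL.pg hu.2.1.symm hv.2.1.symm huv nuv
    (fun h => hu.2.2 ((memD u).mp h).2) (fun h => hv.2.2 ((memD v).mp h).2)
    (fun t ht => ((memD t).mp ht).2) (key u hu.1 hu.2.1 hu.2.2) (key v hv.1 hv.2.1 hv.2.2) hD with
    ⟨t, ht, t', ht', -, -, -, -, hc⟩ | ⟨c, c', hcx, -, -, hcx', -, -, hc⟩ |
    ⟨c, t, ht, hcx, -, -, -, hc⟩ | ⟨t, ht, -, hc⟩
  · refine ⟨t, t', nex t ht, nex t' ht', fun s hs => ?_⟩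
    rcases hc s hs with h | h | h | h
    · exact Or.inl (hmem s hs t (Or.inl h))
    · exact Or.inl (hmem s hs t (Or.inr h))
    · exact Or.inr (hmem s hs t' (Or.inl h))
    · exact Or.inr (hmem s hs t' (Or.inr h))
  · refine ⟨c, c', hcx, hcx', fun s hs => ?_⟩
    rcases hc s hs with h | h | h | h
    · exact Or.inl (hmem s hs c (Or.inl h))
    · exact Or.inl (hmem s hs c (Or.inr h))
    · exact Or.inr (hmem s hs c' (Or.inl h))
    · exact Or.inr (hmem s hs c' (Or.inr h))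
  · refine ⟨c, t, hcx, nex t ht, fun s hs => ?_⟩
    rcases hc s hs with h | h | h | h
    · exact Or.inl (hmem s hs c (Or.inl h))
    · exact Or.inl (hmem s hs c (Or.inr h))
    · exact Or.inr (hmem s hs t (Or.inl h))
    · exact Or.inr (hmem s hs t (Or.inr h))
  · refine ⟨t, t, nex t ht, nex t ht, fun s hs => ?_⟩
    rcases hc s hs with h | h
    · exact Or.inl (hmem s hs t (Or.inl h))
    · exact Or.inl (hmem s hs t (Or.inr h))

end Pool.Agent.H31.RCQ.GC
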