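import Pool.Agent.H6.RCQ.Stmts1

/-!
# Project RCQ: modules PE6, PE7, R3L

Two adjacent poles have at most three common neighbours that are pairwise linked (PE6); among at
least six common neighbours at most three are pairwise linked (PE7); an outside vertex linked to all
three common neighbours of adjacent poles (R3L).
-/

set_option autoImplicit false

namespace Pool.Agent.H31.RCQ.PE6

open Pool.Agent.H39.RC Pool.Agent.H6.RCQ
open Classical

variable {V : Type}

lemma ej_symm {G : SimpleGraph V} {P Q : Set V} {S : Finset V} {s t : V} (h : EJ G P Q S s t) :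
    EJ G P Q S t s := by
  obtain ⟨h1, h2, h3, h4⟩ := h
  refine ⟨h2, h1, h3.symm, ?_⟩
  rcases h4 with h4 | ⟨v, a, b⟩
  · exact Or.inl h4.symm
  · exact Or.inr ⟨v, b, a⟩

lemma ej_adj {G : SimpleGraph V} {P Q : Set V} {S : Finset V} {s t : V} (hs : s ∈ S) (ht : t ∈ S)
    (h : G.Adj s t) : EJ G P Q S s t := ⟨hs, ht, h.ne, Or.inl h⟩

lemma mem_XX {P Q : Set V} {S : Finset V} {x : V} : x ∈ XX P Q S ↔ x ∈ P ∪ Q ∨ x ∈ S := by
  unfold XX
  rw [Set.mem_union, Finset.mem_coe]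

/-- a linked pair is consecutive or has a middle in `S` -/
lemma ej_or {G : SimpleGraph V} {P Q : Set V} {S : Finset V} {s t : V} (hs : s ∈ S) (ht : t ∈ S)
    (hn : s ≠ t) (h : Rch G (P ∪ Q) s t) :
    EJ G P Q S s t ∨ ∃ m ∈ S, G.Adj s m ∧ G.Adj m t := by
  rcases h with h | ⟨x, hx, h1, h2⟩
  · exact Or.inl ⟨hs, ht, hn, Or.inl h⟩
  · by_cases hxS : x ∈ S
    · exact Or.inr ⟨x, hxS, h1, h2⟩
    · left
      have hxX : x ∉ XX P Q S := by
        rw [mem_XX]
        rintro (h | h)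
        · exact hx h
        · exact hxS h
      exact ⟨hs, ht, hn, Or.inr ⟨x, lnk_adj hxX h1.symm, lnk_adj hxX h2⟩⟩

lemma pol_mono {G : SimpleGraph V} {P Q : Set V} {S T : Finset V} (h : Pol G P Q S) (hT : T ⊆ S) :
    Pol G P Q T :=
  ⟨h.cP, h.cQ, h.dis, fun s hs => h.oP s (hT hs), fun s hs => h.oQ s (hT hs),
    fun s hs => h.aP s (hT hs), fun s hs => h.aQ s (hT hs)⟩

/-- module PE6 -/
theorem pe6 (h2 : PE2Stmt) (h3 : PE3Stmt) (h4 : PE4Stmt) : PE6Stmt := by
  intro V G P Q S hG hP hA hR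
  have hle : S.card ≤ 3 := by
    by_contra hcon
    obtain ⟨T, hTS, hT⟩ := Finset.exists_subset_card_eq (not_le.mp hcon : 4 ≤ S.card)
    obtain ⟨t1, T3, n1, hT1, hT3⟩ := Finset.card_eq_succ.mp hT
    obtain ⟨t2, t3, t4, n23, n24, n34, hT2⟩ := Finset.card_eq_three.mp hT3
    subst hT2
    simp only [Finset.mem_insert, Finset.mem_singleton, not_or] at n1
    obtain ⟨n12, n13, n14⟩ := n1
    have m1 : t1 ∈ T := by rw [← hT1]; simp
    have m2 : t2 ∈ T := by rw [← hT1]; simp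
    have m3 : t3 ∈ T := by rw [← hT1]; simp
    have m4 : t4 ∈ T := by rw [← hT1]; simp
    have hPT := pol_mono hP hTS
    have D := fun s a b c => h2 V G P Q T hG hPT s a b c
    have mem : ∀ m, m ∈ T → m = t1 ∨ m = t2 ∨ m = t3 ∨ m = t4 := by
      intro m hm
      rw [← hT1] at hm
      simpa using hm
    have E : ∀ s ∈ T, ∀ t ∈ T, s ≠ t → EJ G P Q T s t ∨ ∃ m ∈ T, G.Adj s m ∧ G.Adj m t :=
      fun s hs t ht hn => ej_or hs ht hn (hR s (hTS hs) t (hTS ht) hn)
    have sy : ∀ s t, EJ G P Q T s t ↔ EJ G P Q T t s := fun s t => ⟨ej_symm, ej_symm⟩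
    have E12 : EJ G P Q T t1 t2 ∨ (EJ G P Q T t1 t3 ∧ EJ G P Q T t2 t3) ∨
        (EJ G P Q T t1 t4 ∧ EJ G P Q T t2 t4) := by
      rcases E t1 m1 t2 m2 n12 with h | ⟨m, hm, ha, hb⟩
      · exact Or.inl h
      · have e1 := ej_adj (P := P) (Q := Q) m1 hm ha
        have e2 := ej_adj (P := P) (Q := Q) m2 hm hb.symm
        rcases mem m hm with rfl | rfl | rfl | rfl
        · exact absurd rfl ha.ne
        · exact absurd rfl hb.ne
        · exact Or.inr (Or.inl ⟨e1, e2⟩)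
        · exact Or.inr (Or.inr ⟨e1, e2⟩)
    have E13 : EJ G P Q T t1 t3 ∨ (EJ G P Q T t1 t2 ∧ EJ G P Q T t2 t3) ∨
        (EJ G P Q T t1 t4 ∧ EJ G P Q T t3 t4) := by
      rcases E t1 m1 t3 m3 n13 with h | ⟨m, hm, ha, hb⟩
      · exact Or.inl h
      · have e1 := ej_adj (P := P) (Q := Q) m1 hm ha
        have e2 := ej_adj (P := P) (Q := Q) m3 hm hb.symm
        rcases mem m hm with rfl | rfl | rfl | rfl
        · exact absurd rfl ha.ne
        · exact Or.inr (Or.inl ⟨e1, ej_symm e2⟩)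
        · exact absurd rfl hb.ne
        · exact Or.inr (Or.inr ⟨e1, e2⟩)
    have E14 : EJ G P Q T t1 t4 ∨ (EJ G P Q T t1 t2 ∧ EJ G P Q T t2 t4) ∨
        (EJ G P Q T t1 t3 ∧ EJ G P Q T t3 t4) := by
      rcases E t1 m1 t4 m4 n14 with h | ⟨m, hm, ha, hb⟩
      · exact Or.inl h
      · have e1 := ej_adj (P := P) (Q := Q) m1 hm ha
        have e2 := ej_adj (P := P) (Q := Q) m4 hm hb.symm
        rcases mem m hm with rfl | rfl | rfl | rfl
        · exact absurd rfl ha.ne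
        · exact Or.inr (Or.inl ⟨e1, ej_symm e2⟩)
        · exact Or.inr (Or.inr ⟨e1, ej_symm e2⟩)
        · exact absurd rfl hb.ne
    have E23 : EJ G P Q T t2 t3 ∨ (EJ G P Q T t1 t2 ∧ EJ G P Q T t1 t3) ∨
        (EJ G P Q T t2 t4 ∧ EJ G P Q T t3 t4) := by
      rcases E t2 m2 t3 m3 n23 with h | ⟨m, hm, ha, hb⟩
      · exact Or.inl h
      · have e1 := ej_adj (P := P) (Q := Q) m2 hm ha
        have e2 := ej_adj (P := P) (Q := Q) m3 hm hb.symm
        rcases mem m hm with rfl | rfl | rfl | rfl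
        · exact Or.inr (Or.inl ⟨ej_symm e1, ej_symm e2⟩)
        · exact absurd rfl ha.ne
        · exact absurd rfl hb.ne
        · exact Or.inr (Or.inr ⟨e1, e2⟩)
    have E24 : EJ G P Q T t2 t4 ∨ (EJ G P Q T t1 t2 ∧ EJ G P Q T t1 t4) ∨
        (EJ G P Q T t2 t3 ∧ EJ G P Q T t3 t4) := by
      rcases E t2 m2 t4 m4 n24 with h | ⟨m, hm, ha, hb⟩
      · exact Or.inl h
      · have e1 := ej_adj (P := P) (Q := Q) m2 hm ha
        have e2 := ej_adj (P := P) (Q := Q) m4 hm hb.symm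
        rcases mem m hm with rfl | rfl | rfl | rfl
        · exact Or.inr (Or.inl ⟨ej_symm e1, ej_symm e2⟩)
        · exact absurd rfl ha.ne
        · exact Or.inr (Or.inr ⟨e1, ej_symm e2⟩)
        · exact absurd rfl hb.ne
    have E34 : EJ G P Q T t3 t4 ∨ (EJ G P Q T t1 t3 ∧ EJ G P Q T t1 t4) ∨
        (EJ G P Q T t2 t3 ∧ EJ G P Q T t2 t4) := by
      rcases E t3 m3 t4 m4 n34 with h | ⟨m, hm, ha, hb⟩
      · exact Or.inl h
      · have e1 := ej_adj (P := P) (Q := Q) m3 hm ha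
        have e2 := ej_adj (P := P) (Q := Q) m4 hm hb.symm
        rcases mem m hm with rfl | rfl | rfl | rfl
        · exact Or.inr (Or.inl ⟨ej_symm e1, ej_symm e2⟩)
        · exact Or.inr (Or.inr ⟨ej_symm e1, ej_symm e2⟩)
        · exact absurd rfl ha.ne
        · exact absurd rfl hb.ne
    have D1 : ¬ (EJ G P Q T t1 t2 ∧ EJ G P Q T t1 t3 ∧ EJ G P Q T t1 t4) :=
      fun ⟨a, b, c⟩ => D _ _ _ _ a b c n23 n24 n34
    have D2 : ¬ (EJ G P Q T t1 t2 ∧ EJ G P Q T t2 t3 ∧ EJ G P Q T t2 t4) :=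
      fun ⟨a, b, c⟩ => D _ _ _ _ (ej_symm a) b c n13 n14 n34
    have D3 : ¬ (EJ G P Q T t1 t3 ∧ EJ G P Q T t2 t3 ∧ EJ G P Q T t3 t4) :=
      fun ⟨a, b, c⟩ => D _ _ _ _ (ej_symm a) (ej_symm b) c n12 n14 n24
    have D4 : ¬ (EJ G P Q T t1 t4 ∧ EJ G P Q T t2 t4 ∧ EJ G P Q T t3 t4) :=
      fun ⟨a, b, c⟩ => D _ _ _ _ (ej_symm a) (ej_symm b) (ej_symm c) n12 n13 n23
    have C := fun s1 s2 s3 s4 => h4 V G P Q T hG hPT (Or.inl hA) s1 s2 s3 s4
    rcases four_logic D1 D2 D3 D4 E12 E13 E14 E23 E24 E34 with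
      ⟨k12, k23, k34, k14⟩ | ⟨k12, k24, k34, k13⟩ | ⟨k13, k23, k24, k14⟩
    · exact C t1 t2 t3 t4 n13 n24 k12 k23 k34 (ej_symm k14)
    · exact C t1 t2 t4 t3 n14 n23 k12 k24 (ej_symm k34) (ej_symm k13)
    · exact C t1 t3 t2 t4 n12 n34 k13 (ej_symm k23) k24 (ej_symm k14)
  refine ⟨hle, fun hc => ?_⟩
  obtain ⟨t1, t2, t3, n12, n13, n23, hS⟩ := Finset.card_eq_three.mp hc
  have m1 : t1 ∈ S := by rw [hS]; simp
  have m2 : t2 ∈ S := by rw [hS]; simp
  have m3 : t3 ∈ S := by rw [hS]; simp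
  have mem : ∀ m, m ∈ S → m = t1 ∨ m = t2 ∨ m = t3 := by
    intro m hm
    rw [hS] at hm
    simpa using hm
  by_cases E12 : EJ G P Q S t1 t2
  · by_cases E23 : EJ G P Q S t2 t3
    · have E13 : ¬ EJ G P Q S t3 t1 := fun h => h3 V G P Q S hG hP (Or.inl hA) t1 t2 t3 E12 E23 h
      rcases ej_or m3 m1 n13.symm (hR t3 m3 t1 m1 n13.symm) with h | ⟨m, hm, ha, hb⟩
      · exact absurd h E13
      · refine ⟨t1, t2, t3, hS, n12, n23, n13, ?_, ?_, fun h => E13 (ej_adj m3 m1 h.symm)⟩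
        · rcases mem m hm with rfl | rfl | rfl
          · exact absurd rfl hb.ne
          · exact hb.symm
          · exact absurd rfl ha.ne
        · rcases mem m hm with rfl | rfl | rfl
          · exact absurd rfl hb.ne
          · exact ha.symm
          · exact absurd rfl ha.ne
    · rcases ej_or m2 m3 n23 (hR t2 m2 t3 m3 n23) with h | ⟨m, hm, ha, hb⟩
      · exact absurd h E23
      · have hm1 : m = t1 := by
          rcases mem m hm with rfl | rfl | rfl
          · rfl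
          · exact absurd rfl ha.ne
          · exact absurd rfl hb.ne
        subst hm1
        refine ⟨t2, m, t3, ?_, n12.symm, n13, n23, ha, hb, fun h => E23 (ej_adj m2 m3 h)⟩
        rw [hS]
        exact Finset.insert_comm _ _ _
  · rcases ej_or m1 m2 n12 (hR t1 m1 t2 m2 n12) with h | ⟨m, hm, ha, hb⟩
    · exact absurd h E12
    · have hm1 : m = t3 := by
        rcases mem m hm with rfl | rfl | rfl
        · exact absurd rfl ha.ne
        · exact absurd rfl hb.ne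
        · rfl
      subst hm1
      refine ⟨t1, m, t2, ?_, n13, n23.symm, n12, ha, hb, fun h => E12 (ej_adj m1 m2 h)⟩
      rw [hS, Finset.pair_comm]

/-- if `z1`, `z2` are joined through `m`, every other vertex near both is `m` or lies across a
6-cycle -/
lemma far_mid (E : V → V → Prop) (sy : ∀ a b, E a b → E b a)
    (dg : ∀ s a b c, E s a → E s b → E s c → a ≠ b → a ≠ c → b ≠ c → False)
    (c4 : ∀ a b c d, a ≠ c → b ≠ d → E a b → E b c → E c d → E d a → False)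
    (c5 : ∀ a b c d e, a ≠ c → a ≠ d → b ≠ d → b ≠ e → c ≠ e → E a b → E b c → E c d → E d e →
      E e a → False) {z1 z2 m x : V} (n12 : z1 ≠ z2) (x1 : x ≠ z1) (x2 : x ≠ z2) (xm : x ≠ m)
    (h12 : ¬ E z1 z2) (a1 : E z1 m) (a2 : E m z2) (d1 : E z1 x ∨ ∃ n, E z1 n ∧ E n x)
    (d2 : E z2 x ∨ ∃ n, E z2 n ∧ E n x) :
    ∃ n n', n ≠ m ∧ n' ≠ m ∧ E z1 n ∧ E n x ∧ E z2 n' ∧ E n' x := by
  have hm : ¬ E m x := fun h => dg m z1 z2 x (sy _ _ a1) a2 h n12 x1.symm x2.symm
  rcases d1 with d1 | ⟨n, p1, p2⟩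
  · exfalso
    rcases d2 with d2 | ⟨n', q1, q2⟩
    · exact c4 z1 m z2 x n12 xm.symm a1 a2 d2 (sy _ _ d1)
    · have e1 : n' ≠ m := fun e => hm (e ▸ q2)
      have e2 : z1 ≠ n' := fun e => h12 (sy _ _ (e ▸ q1))
      exact c5 z1 m z2 n' x n12 e2 e1.symm xm.symm x2.symm a1 a2 q1 q2 (sy _ _ d1)
  · have e1 : n ≠ m := fun e => hm (e ▸ p2)
    have e2 : z2 ≠ n := fun e => h12 (e ▸ p1)
    rcases d2 with d2 | ⟨n', q1, q2⟩
    · exfalso
      exact c5 z1 m z2 x n n12 x1.symm xm.symm e1.symm e2 a1 a2 d2 (sy _ _ p2) (sy _ _ p1)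
    · have e3 : n' ≠ m := fun e => hm (e ▸ q2)
      exact ⟨n, n', e1, e3, p1, p2, q1, q2⟩

/-- no four vertices pairwise at distance at most two -/
lemma no_four (E : V → V → Prop) (sy : ∀ a b, E a b → E b a)
    (dg : ∀ s a b c, E s a → E s b → E s c → a ≠ b → a ≠ c → b ≠ c → False)
    (c4 : ∀ a b c d, a ≠ c → b ≠ d → E a b → E b c → E c d → E d a → False)
    (c5 : ∀ a b c d e, a ≠ c → a ≠ d → b ≠ d → b ≠ e → c ≠ e → E a b → E b c → E c d → E d e →
      E e a → False) {z1 z2 z3 z4 : V} (n12 : z1 ≠ z2) (n13 : z1 ≠ z3) (n14 : z1 ≠ z4)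
    (n23 : z2 ≠ z3) (n24 : z2 ≠ z4) (n34 : z3 ≠ z4) (h12 : ¬ E z1 z2)
    (d : ∀ u ∈ ({z1, z2, z3, z4} : Finset V), ∀ v ∈ ({z1, z2, z3, z4} : Finset V), u ≠ v →
      E u v ∨ ∃ m, E u m ∧ E m v) : False := by
  obtain h | ⟨m, a1, a2⟩ := d z1 (by simp) z2 (by simp) n12
  · exact h12 h
  have key : ∀ x ∈ ({z3, z4} : Finset V), x ≠ z1 → x ≠ z2 → x ≠ m →
      ∃ n n', n ≠ m ∧ n' ≠ m ∧ E z1 n ∧ E n x ∧ E z2 n' ∧ E n' x := by
    intro x hx x1 x2 xm
    have hx' : x ∈ ({z1, z2, z3, z4} : Finset V) := by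
      simp only [Finset.mem_insert, Finset.mem_singleton] at hx ⊢
      tauto
    exact far_mid E sy dg c4 c5 n12 x1 x2 xm h12 a1 a2 (d z1 (by simp) x hx' x1.symm)
      (d z2 (by simp) x hx' x2.symm)
  -- a vertex across the 6-cycle is not near `m`
  have cross : ∀ x, x ≠ z1 → x ≠ z2 → x ≠ m → (∃ n n', n ≠ m ∧ n' ≠ m ∧ E z1 n ∧ E n x ∧
      E z2 n' ∧ E n' x) → (E m x ∨ ∃ k, E m k ∧ E k x) → False := by
    rintro x x1 x2 xm ⟨n, n', e1, e2, p1, p2, q1, q2⟩ h
    have nx : n ≠ x := by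
      intro e
      rw [e] at p1
      -- `x` adjacent to `z1` and to itself through `n = x`
      rw [e] at p2
      exact dg x z1 x n' (sy _ _ p1) p2 (sy _ _ q2) x1.symm (by
        intro e'
        rw [← e'] at q1
        exact h12 (sy _ _ q1)) (by
        intro e'
        rw [← e'] at q1
        exact c4 z1 m z2 x n12 xm.symm a1 a2 q1 (sy _ _ p1))
    have nx' : n' ≠ x := by
      intro e
      rw [e] at q1
      rw [e] at q2
      exact dg x z2 x n (sy _ _ q1) q2 (sy _ _ p2) x2.symm (by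
        intro e'
        rw [← e'] at p1
        exact h12 p1) (by
        intro e'
        exact nx e'.symm)
    rcases h with h | ⟨k, k1, k2⟩
    · exact dg m z1 z2 x (sy _ _ a1) a2 h n12 x1.symm x2.symm
    · by_cases ek1 : k = z1
      · rw [ek1] at k2
        exact dg z1 m n x a1 p1 k2 e1.symm xm.symm nx
      · by_cases ek2 : k = z2
        · rw [ek2] at k2
          exact dg z2 m n' x (sy _ _ a2) q1 k2 e2.symm xm.symm nx'
        · exact dg m z1 z2 k (sy _ _ a1) a2 k1 n12 (Ne.symm ek1) (Ne.symm ek2)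
  by_cases e3 : z3 = m
  · have e4 : z4 ≠ m := fun e => n34 (e3.trans e.symm)
    have h4 := key z4 (by simp) n14.symm n24.symm e4
    refine cross z4 n14.symm n24.symm e4 h4 ?_
    have := d z3 (by simp) z4 (by simp) n34
    rwa [e3] at this
  · have h3 := key z3 (by simp) n13.symm n23.symm e3
    by_cases e4 : z4 = m
    · refine cross z3 n13.symm n23.symm e3 h3 ?_
      have := d z4 (by simp) z3 (by simp) n34.symm
      rwa [e4] at this
    · have h4 := key z4 (by simp) n14.symm n24.symm e4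
      obtain ⟨n, n', u1, u2, p1, p2, q1, q2⟩ := h3
      obtain ⟨k, k', v1, v2, r1, r2, s1, s2⟩ := h4
      have enk : n = k := by
        by_contra hne
        exact dg z1 m n k a1 p1 r1 u1.symm v1.symm hne
      rw [← enk] at r2
      exact dg n z1 z3 z4 (sy _ _ p1) p2 r2 n13 n14 n34

/-- module PE7 -/
theorem pe7 (h2 : PE2Stmt) (h4 : PE4Stmt) (h5 : PE5Stmt) : PE7Stmt := by
  intro V G P Q S Z hG hP hS hZS hR
  by_contra hcon
  obtain ⟨T, hTZ, hT⟩ := Finset.exists_subset_card_eq (not_le.mp hcon : 4 ≤ Z.card)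
  obtain ⟨t1, T3, n1, hT1, hT3⟩ := Finset.card_eq_succ.mp hT
  obtain ⟨t2, t3, t4, n23, n24, n34, hT2⟩ := Finset.card_eq_three.mp hT3
  subst hT2
  simp only [Finset.mem_insert, Finset.mem_singleton, not_or] at n1
  obtain ⟨n12, n13, n14⟩ := n1
  have hTS : ∀ u ∈ T, u ∈ S := fun u hu => hZS (hTZ hu)
  have E : ∀ u ∈ T, ∀ v ∈ T, u ≠ v → EJ G P Q S u v ∨ ∃ m, EJ G P Q S u m ∧ EJ G P Q S m v := by
    intro u hu v hv hn
    rcases ej_or (hTS u hu) (hTS v hv) hn (hR u (hTZ hu) v (hTZ hv) hn) with h | ⟨m, hm, ha, hb⟩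
    · exact Or.inl h
    · exact Or.inr ⟨m, ej_adj (hTS u hu) hm ha, ej_adj hm (hTS v hv) hb⟩
  have dg := h2 V G P Q S hG hP
  have c4 := h4 V G P Q S hG hP (Or.inr (by omega))
  have c5 := h5 V G P Q S hG hP (Or.inr hS)
  have sy : ∀ a b, EJ G P Q S a b → EJ G P Q S b a := fun a b h => ej_symm h
  rw [← hT1] at E
  by_cases h12 : EJ G P Q S t1 t2
  · by_cases h13 : EJ G P Q S t1 t3
    · by_cases h14 : EJ G P Q S t1 t4
      · exact dg t1 t2 t3 t4 h12 h13 h14 n23 n24 n34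
      · refine no_four (EJ G P Q S) sy dg c4 c5 n14 n12 n13 n24.symm n34.symm n23 h14 ?_
        intro u hu v hv hn
        refine E u ?_ v ?_ hn
        · simp only [Finset.mem_insert, Finset.mem_singleton] at hu ⊢
          tauto
        · simp only [Finset.mem_insert, Finset.mem_singleton] at hv ⊢
          tauto
    · refine no_four (EJ G P Q S) sy dg c4 c5 n13 n12 n14 n23.symm n34 n24 h13 ?_
      intro u hu v hv hn
      refine E u ?_ v ?_ hn
      · simp only [Finset.mem_insert, Finset.mem_singleton] at hu ⊢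
        tauto
      · simp only [Finset.mem_insert, Finset.mem_singleton] at hv ⊢
        tauto
  · exact no_four (EJ G P Q S) sy dg c4 c5 n12 n13 n14 n23 n24 n34 h12 E

/-- module R3L -/
theorem r3l (h1 : PE1Stmt) : R3LStmt := by
  intro V G P Q S hG hP hA hS r hr hR
  have att : ∀ s ∈ S, Lnk G (XX P Q S) r s ∨ ∃ m ∈ S, G.Adj r m ∧ G.Adj m s := by
    intro s hs
    rcases hR s hs with h | ⟨x, hx, ha, hb⟩
    · exact Or.inl (lnk_adj hr h)
    · by_cases hxS : x ∈ S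
      · exact Or.inr ⟨x, hxS, ha, hb⟩
      · left
        have hxX : x ∉ XX P Q S := by
          rw [mem_XX]
          rintro (h | h)
          · exact hx h
          · exact hxS h
        exact lnk_cons hr ha (lnk_adj hxX hb)
  have main : ∀ a x y, S = {a, x, y} → a ≠ x → a ≠ y → x ≠ y → ¬ Lnk G (XX P Q S) r a →
      ∃ a b c, S = {a, b, c} ∧ a ≠ b ∧ a ≠ c ∧ b ≠ c ∧ G.Adj r b ∧ EJ G P Q S a b ∧
        EJ G P Q S b c ∧ (G.Adj b a ∨ G.Adj b c) ∧ (Lnk G (XX P Q S) r a ∨ G.Adj b a) ∧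
        (Lnk G (XX P Q S) r c ∨ G.Adj b c) := by
    intro a x y hS' nax nay nxy hna
    have ma : a ∈ S := by rw [hS']; simp
    have core : ∀ b c, S = {a, b, c} → a ≠ b → a ≠ c → b ≠ c → G.Adj r b → G.Adj b a →
        ∃ a b c, S = {a, b, c} ∧ a ≠ b ∧ a ≠ c ∧ b ≠ c ∧ G.Adj r b ∧ EJ G P Q S a b ∧
          EJ G P Q S b c ∧ (G.Adj b a ∨ G.Adj b c) ∧ (Lnk G (XX P Q S) r a ∨ G.Adj b a) ∧
          (Lnk G (XX P Q S) r c ∨ G.Adj b c) := by
      intro b c hb nab nac nbc rb ba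
      have mb : b ∈ S := by rw [hb]; simp
      have mc : c ∈ S := by rw [hb]; simp
      have lc : Lnk G (XX P Q S) r c ∨ G.Adj b c := by
        rcases att c mc with h | ⟨m, hm, h5, h6⟩
        · exact Or.inl h
        · have hm' : m = a ∨ m = b ∨ m = c := by
            rw [hb] at hm
            simpa using hm
          rcases hm' with rfl | rfl | rfl
          · exact absurd (lnk_adj hr h5) hna
          · exact Or.inr h6
          · exact absurd rfl h6.ne
      refine ⟨a, b, c, hb, nab, nac, nbc, rb, ej_adj ma mb ba.symm, ?_, Or.inl ba, Or.inr ba, lc⟩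
      rcases lc with h | h
      · exact ⟨mb, mc, nbc, Or.inr ⟨r, lnk_adj hr rb, h⟩⟩
      · exact ej_adj mb mc h
    rcases att a ma with h | ⟨m, hm, h5, h6⟩
    · exact absurd h hna
    · have hm' : m = a ∨ m = x ∨ m = y := by
        rw [hS'] at hm
        simpa using hm
      rcases hm' with e | e | e
      · exact absurd e h6.ne
      · subst e
        exact core m y hS' nax nay nxy h5 h6
      · subst e
        exact core m x (by rw [hS', Finset.pair_comm]) nay nax nxy.symm h5 h6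
  obtain ⟨t1, t2, t3, n12, n13, n23, hS'⟩ := Finset.card_eq_three.mp hS
  have m1 : t1 ∈ S := by rw [hS']; simp
  have m2 : t2 ∈ S := by rw [hS']; simp
  have m3 : t3 ∈ S := by rw [hS']; simp
  by_cases l1 : Lnk G (XX P Q S) r t1
  · by_cases l2 : Lnk G (XX P Q S) r t2
    · have l3 : ¬ Lnk G (XX P Q S) r t3 := fun l3 =>
        h1 V G P Q S hG hP r t1 t2 t3 m1 m2 m3 n12 n13 n23 l1 l2 l3
      refine main t3 t1 t2 ?_ n13.symm n23.symm n12 l3
      rw [hS']
      ext z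
      simp only [Finset.mem_insert, Finset.mem_singleton]
      tauto
    · refine main t2 t1 t3 ?_ n12.symm n23 n13 l2
      rw [hS']
      exact Finset.insert_comm _ _ _
  · exact main t1 t2 t3 hS' n12 n13 n23 l1

end Pool.Agent.H31.RCQ.PE6
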